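import Mathlib

set_option autoImplicit false

namespace Pool.Agent.Results.MP_952e1b_co.TypeOneFails

/-- The sets FE^I_n(X), for the set X listed increasingly as x 0 < x 1 < ... . -/
def FEI (x : ℕ → ℕ) : ℕ → Set ℕ
  | 0 => {x 0}
  | n + 1 => {z | ∃ y ∈ FEI x n, z = y ^ x (n + 1)} ∪ FEI x n ∪ {x (n + 1)}

/-- C is an exponential IP set of type I. -/
def IsExpIPI (C : Set ℕ) : Prop :=
  ∃ x : ℕ → ℕ, StrictMono x ∧ ∀ n, FEI x n ⊆ C

/-- Thresholds. -/
def u : ℕ → ℕ
  | 0 => 2
  | 1 => 3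
  | 2 => 5
  | m + 3 => 2 ^ (2 ^ u m)

theorem u_three (m : ℕ) : u (m + 3) = 2 ^ (2 ^ u m) := by
  rw [u]

theorem u_lt_two_pow : ∀ m, u (m + 1) < 2 ^ u m
  | 0 => by simp [u]
  | 1 => by simp [u]
  | 2 => by
      have : u 3 = 2 ^ (2 ^ u 0) := u_three 0
      rw [this]
      norm_num [u]
  | m + 3 => by
      have h := u_lt_two_pow m
      have e1 : u (m + 3 + 1) = 2 ^ (2 ^ u (m + 1)) := u_three (m + 1)
      have e2 : u (m + 3) = 2 ^ (2 ^ u m) := u_three m
      rw [e1, e2]
      apply Nat.pow_lt_pow_right (by norm_num)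
      exact Nat.pow_lt_pow_right (by norm_num) h

theorem u_lt_succ : ∀ m, u m < u (m + 1)
  | 0 => by simp [u]
  | 1 => by simp [u]
  | 2 => by
      have : u 3 = 2 ^ (2 ^ u 0) := u_three 0
      rw [this]
      norm_num [u]
  | m + 3 => by
      have h := u_lt_succ m
      have e1 : u (m + 3 + 1) = 2 ^ (2 ^ u (m + 1)) := u_three (m + 1)
      have e2 : u (m + 3) = 2 ^ (2 ^ u m) := u_three m
      rw [e1, e2]
      apply Nat.pow_lt_pow_right (by norm_num)
      exact Nat.pow_lt_pow_right (by norm_num) h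

theorem u_strictMono : StrictMono u := strictMono_nat_of_lt_succ u_lt_succ

theorem u_sq_le (m : ℕ) : u (m + 4) * u (m + 4) ≤ 2 ^ u (m + 3) := by
  have h := u_lt_two_pow m
  have e1 : u (m + 4) = 2 ^ (2 ^ u (m + 1)) := u_three (m + 1)
  have e2 : u (m + 3) = 2 ^ (2 ^ u m) := u_three m
  rw [e1, e2, ← pow_add]
  apply Nat.pow_le_pow_right (by norm_num)
  have : 2 ^ u (m + 1) + 2 ^ u (m + 1) = 2 ^ (u (m + 1) + 1) := by ring
  rw [this]
  exact Nat.pow_le_pow_right (by norm_num) h

/-- Number of thresholds that are at most n. -/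
def idx (n : ℕ) : ℕ := ((Finset.range (n + 1)).filter (fun m => u m ≤ n)).card

theorem le_u (m : ℕ) : m ≤ u m := u_strictMono.le_apply

theorem idx_eq {m n : ℕ} (h1 : u m ≤ n) (h2 : n < u (m + 1)) : idx n = m + 1 := by
  unfold idx
  have : (Finset.range (n + 1)).filter (fun m => u m ≤ n) = Finset.range (m + 1) := by
    ext k
    simp only [Finset.mem_filter, Finset.mem_range]
    constructor
    · rintro ⟨_, hk⟩
      by_contra hc
      have : m + 1 ≤ k := by omega
      have := u_strictMono.monotone this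
      omega
    · intro hk
      have h3 : u k ≤ u m := u_strictMono.monotone (by omega)
      have h4 := le_u k
      constructor
      · omega
      · omega
  rw [this, Finset.card_range]

theorem exists_idx {n : ℕ} (hn : 2 ≤ n) : ∃ m, u m ≤ n ∧ n < u (m + 1) := by
  have hex : ∃ m, n < u m := ⟨n + 1, lt_of_lt_of_le (Nat.lt_succ_self n) (le_u (n + 1))⟩
  classical
  let m := Nat.find hex
  have hm : n < u m := Nat.find_spec hex
  have hm0 : m ≠ 0 := by
    intro h0
    rw [h0] at hm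
    simp [u] at hm
    omega
  obtain ⟨k, hk⟩ := Nat.exists_eq_succ_of_ne_zero hm0
  refine ⟨k, ?_, ?_⟩
  · by_contra hc
    push Not at hc
    exact Nat.find_min hex (by show k < m; omega) hc
  · have : k + 1 = m := by omega
    rw [this]
    exact hm

/-- The colouring with three colours. -/
def col (n : ℕ) : ℕ := idx n % 3

theorem key {x : ℕ} (hx : 2 ≤ x) {n : ℕ} (hn : u 3 ≤ n) (hnx : x ≤ n) :
    col (x ^ n) ≠ col n := by
  have h2n : 2 ≤ n := le_trans hx hnx
  obtain ⟨m, hm1, hm2⟩ := exists_idx h2n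
  have hm3 : 3 ≤ m := by
    by_contra hc
    have : m + 1 ≤ 3 := by omega
    have := u_strictMono.monotone this
    omega
  obtain ⟨k, rfl⟩ : ∃ k, m = k + 3 := ⟨m - 3, by omega⟩
  have hlow : u (k + 3 + 1) ≤ x ^ n := by
    have h1 := u_lt_two_pow (k + 3)
    have h3 : 2 ^ u (k + 3) ≤ 2 ^ n := Nat.pow_le_pow_right (by norm_num) hm1
    have h4 : 2 ^ n ≤ x ^ n := Nat.pow_le_pow_left hx n
    omega
  have hup : x ^ n < u (k + 3 + 3) := by
    rw [u_three (k + 3)]
    have hx2 : x ≤ 2 ^ x := Nat.lt_two_pow_self.le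
    have h1 : x ^ n ≤ (2 ^ x) ^ n := Nat.pow_le_pow_left hx2 n
    rw [← pow_mul] at h1
    refine lt_of_le_of_lt h1 ?_
    apply Nat.pow_lt_pow_right (by norm_num)
    have hsq := u_sq_le k
    have h5 : x * n < u (k + 4) * u (k + 4) := by
      have hxu : x < u (k + 4) := lt_of_le_of_lt hnx hm2
      have hnu : n < u (k + 4) := hm2
      exact Nat.mul_lt_mul'' hxu hnu
    omega
  have hidxn : idx n = k + 3 + 1 := idx_eq hm1 hm2
  rcases lt_or_ge (x ^ n) (u (k + 3 + 2)) with h | h
  · have : idx (x ^ n) = k + 3 + 1 + 1 := idx_eq hlow h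
    unfold col
    rw [this, hidxn]
    omega
  · have : idx (x ^ n) = k + 3 + 2 + 1 := idx_eq h hup
    unfold col
    rw [this, hidxn]
    omega

theorem mem_FEI (x : ℕ → ℕ) (i : ℕ) : ∀ n, i ≤ n → x i ∈ FEI x n := by
  intro n
  induction n with
  | zero =>
    intro h
    have : i = 0 := by omega
    subst this
    simp [FEI]
  | succ n ih =>
    intro h
    rcases Nat.lt_or_ge n i with h1 | h1
    · have : i = n + 1 := by omega
      subst this
      simp [FEI]
    · have := ih h1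
      simp only [FEI]
      exact Or.inl (Or.inr this)

theorem pow_mem_FEI (x : ℕ → ℕ) {i j : ℕ} (hij : i < j) : x i ^ x j ∈ FEI x j := by
  obtain ⟨k, rfl⟩ : ∃ k, j = k + 1 := ⟨j - 1, by omega⟩
  simp only [FEI]
  exact Or.inl (Or.inl ⟨x i, mem_FEI x i k (by omega), rfl⟩)

theorem col_lt (n : ℕ) : col n < 3 := Nat.mod_lt _ (by norm_num)

/-- The colouring with r ≥ 3 colours. -/
def colr (r : ℕ) (hr : 3 ≤ r) (n : ℕ) : Fin r :=
  if h : n + 3 < r then ⟨n + 3, h⟩ else ⟨col n, lt_of_lt_of_le (col_lt n) hr⟩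

theorem col_surj (N : ℕ) (i : ℕ) (hi : i < 3) : ∃ n, N ≤ n ∧ col n = i := by
  refine ⟨u (3 * (N + 1) + i - 1 + 0), ?_, ?_⟩
  · have := le_u (3 * (N + 1) + i - 1 + 0)
    omega
  · have h := idx_eq (m := 3 * (N + 1) + i - 1 + 0) (n := u (3 * (N + 1) + i - 1 + 0)) le_rfl
      (u_lt_succ _)
    unfold col
    rw [h]
    omega

/-- For every r at least 3 there is a partition of the natural numbers into r (nonempty) cells,
none of which is an exponential IP set of type I. -/
theorem result : ∀ r : ℕ, 3 ≤ r → ∃ c : ℕ → Fin r, Function.Surjective c ∧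
    ∀ i : Fin r, ¬ IsExpIPI {n | c n = i} := by
  intro r hr
  refine ⟨colr r hr, ?_, ?_⟩
  · intro i
    by_cases hi : i.1 < 3
    · obtain ⟨n, hn, hc⟩ := col_surj r i.1 hi
      refine ⟨n, ?_⟩
      have : ¬ (n + 3 < r) := by omega
      simp only [colr, this, dite_false]
      exact Fin.ext hc
    · refine ⟨i.1 - 3, ?_⟩
      have hi2 := i.2
      have : i.1 - 3 + 3 < r := by omega
      simp only [colr, this, dite_true]
      apply Fin.ext
      show i.1 - 3 + 3 = i.1
      omega
  · rintro i ⟨x, hx, hC⟩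
    have hle : ∀ j, j ≤ x j := fun j => hx.le_apply
    -- a large index
    set j := u 3 + r + x 2 + 3 with hj
    have hj2 : 2 < j := by omega
    have hxj : j ≤ x j := hle j
    have h2 : 2 ≤ x 2 := hle 2
    have hmem1 : x j ∈ {n | colr r hr n = i} := hC j (mem_FEI x j j le_rfl)
    have hmem2 : x 2 ^ x j ∈ {n | colr r hr n = i} := hC j (pow_mem_FEI x hj2)
    have hbig : x j ≤ x 2 ^ x j := by
      have : x j < 2 ^ x j := Nat.lt_two_pow_self
      have h3 : 2 ^ x j ≤ x 2 ^ x j := Nat.pow_le_pow_left h2 _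
      omega
    have hn1 : ¬ (x j + 3 < r) := by omega
    have hn2 : ¬ (x 2 ^ x j + 3 < r) := by omega
    have e1 : colr r hr (x j) = i := hmem1
    have e2 : colr r hr (x 2 ^ x j) = i := hmem2
    simp only [colr, hn1, dite_false] at e1
    simp only [colr, hn2, dite_false] at e2
    have e3 : col (x j) = i.1 := congrArg Fin.val e1
    have e4 : col (x 2 ^ x j) = i.1 := congrArg Fin.val e2
    exact key h2 (n := x j) (by omega) (by omega) (e4.trans e3.symm)

end Pool.Agent.Results.MP_952e1b_co.TypeOneFails
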